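import Mathlib
import Pool.Agent.Lib.MP_bc2066_lc.Degrees

/-!
MP_bc2066_lc, Q1, answered in the negated form: in every cone of enumeration degrees there are
cototal degrees `a`, `b` whose upper cones have different first-order theories in the language `≤`.
A single sentence separates them, and `a` is even total.
-/

namespace Pool.Agent.Results.MP_bc2066_lc.DifferentTheories

open FirstOrder FirstOrder.Language Pool.Agent.MP_bc2066_lc

theorem result : ∃ φ : Language.order.Sentence, ∀ c : EDeg, ∃ a b : EDeg,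
    (c ≤ a ∧ IsTotalDeg a ∧ IsCototalDeg a ∧ Cone a ⊨ φ) ∧
    (c ≤ b ∧ IsCototalDeg b ∧ ¬ (Cone b ⊨ φ)) := by
  refine ⟨splitF, fun c => ?_⟩
  obtain ⟨C, rfl⟩ := deg_surj c
  obtain ⟨b, hcb, hb, hsplit⟩ := exists_not_split (deg C)
  have hc : (join C Cᶜ)ᶜ = join Cᶜ C := by
    ext z
    change ¬ ((z % 2 = 0 ∧ z / 2 ∈ C) ∨ (z % 2 = 1 ∧ z / 2 ∉ C)) ↔
      ((z % 2 = 0 ∧ z / 2 ∉ C) ∨ (z % 2 = 1 ∧ z / 2 ∈ C))
    rcases Nat.mod_two_eq_zero_or_one z with h0 | h0 <;> simp [h0]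
  have htot : IsTotalDeg (deg (join C Cᶜ)) := by
    refine ⟨join C Cᶜ, rfl, ?_⟩
    rw [hc]
    exact join_le (le_join_right _ _) (le_join_left _ _)
  refine ⟨deg (join C Cᶜ), b, ⟨deg_le.2 (le_join_left _ _), htot, htot.isCototalDeg,
    realize_splitF.2 (split_of_total htot)⟩, hcb, hb, fun h => hsplit (realize_splitF.1 h)⟩

end Pool.Agent.Results.MP_bc2066_lc.DifferentTheories
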